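import Mathlib

/-! A weakly support-preserving endomorphism of `(𝒫(ℕ), *)` that is neither a tilting map nor
`Φ_max` nor `Φ_min`: take a valuation `v` on `ℝ` with `v 2 < 1` and send `μ` to the point mass at
the first index where `v (μ s)` is maximal (Gauss' lemma gives multiplicativity). -/

namespace Pool.Agent.Results.MP_aec1ed_pr.Val

open Finset

/-- finitely supported probability measures on `ℕ`, given by their mass functions -/
def FinProb : Type :=
  {μ : ℕ → ℝ // (∀ s, 0 ≤ μ s) ∧ (Function.support μ).Finite ∧ ∑ᶠ s, μ s = 1}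

/-- convolution of mass functions -/
def conv (μ ν : ℕ → ℝ) (s : ℕ) : ℝ := ∑ p ∈ Finset.HasAntidiagonal.antidiagonal s, μ p.1 * ν p.2

/-- `supp μ = {s : μ(s) > 0}` -/
def supp (μ : ℕ → ℝ) : Set ℕ := {s | 0 < μ s}

/-- `Ψ[μ₁ * μ₂] = Ψ[μ₁] * Ψ[μ₂]` -/
def IsEndo (Ψ : FinProb → FinProb) : Prop :=
  ∀ μ₁ μ₂ μ : FinProb, μ.1 = conv μ₁.1 μ₂.1 → (Ψ μ).1 = conv (Ψ μ₁).1 (Ψ μ₂).1

/-- `supp Ψ[μ] ⊆ supp μ` -/
def WeaklySP (Ψ : FinProb → FinProb) : Prop := ∀ μ : FinProb, supp (Ψ μ).1 ⊆ supp μ.1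

/-- point mass -/
def dirac (m : ℕ) (s : ℕ) : ℝ := if s = m then 1 else 0

/-- the tilting map `Φ_β` -/
noncomputable def tilt (β : ℝ) (μ : ℕ → ℝ) (s : ℕ) : ℝ :=
  μ s * Real.exp (-β * s) / ∑ᶠ t : ℕ, μ t * Real.exp (-β * t)

/-- `Φ_max` -/
noncomputable def phiMax (μ : ℕ → ℝ) : ℕ → ℝ := dirac (sSup (supp μ))

/-- `Φ_min` -/
noncomputable def phiMin (μ : ℕ → ℝ) : ℕ → ℝ := dirac (sInf (supp μ))

lemma exists_val : ∃ V : ValuationSubring ℝ, V.valuation 2 < 1 := by
  let A : Subring ℝ := ⊥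
  let two : A := ⟨2, by simp⟩
  have hne : Ideal.span {two} ≠ ⊤ := by
    intro h
    rw [Ideal.span_singleton_eq_top] at h
    obtain ⟨⟨b, hb⟩, e⟩ := isUnit_iff_exists_inv.mp h
    obtain ⟨z, rfl⟩ := Subring.mem_bot.1 hb
    have e' : (2 : ℝ) * (z : ℝ) = 1 := congrArg Subtype.val e
    have : (2 : ℤ) * z = 1 := by exact_mod_cast e'
    omega
  obtain ⟨V, -, hV⟩ := Ideal.image_subset_nonunits_valuationSubring _ hne
  exact ⟨V, V.mem_nonunits_iff.1 (hV ⟨two, Ideal.subset_span rfl, rfl⟩)⟩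

section
variable {Γ : Type*} [LinearOrderedCommGroupWithZero Γ] (v : Valuation ℝ Γ)

def IsIdx (μ : ℕ → ℝ) (i : ℕ) : Prop :=
  (∀ j, v (μ j) ≤ v (μ i)) ∧ (∀ j < i, v (μ j) < v (μ i)) ∧ μ i ≠ 0

lemma IsIdx.unique {μ : ℕ → ℝ} {a b : ℕ} (ha : IsIdx v μ a) (hb : IsIdx v μ b) : a = b := by
  rcases lt_trichotomy a b with h | h | h
  · exact absurd (hb.2.1 a h) (not_lt.2 (ha.1 b))
  · exact h
  · exact absurd (ha.2.1 b h) (not_lt.2 (hb.1 a))

lemma exists_idx (μ : FinProb) : ∃ i, IsIdx v μ.1 i := by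
  classical
  obtain ⟨μ, h0, hf, h1⟩ := μ
  have hne : (Function.support μ).Nonempty := by
    by_contra h
    rw [Set.not_nonempty_iff_eq_empty, Function.support_eq_empty_iff] at h
    subst h
    simp at h1
  obtain ⟨a, ha, hmax⟩ := hf.exists_maximalFor (fun j => v (μ j)) _ hne |>.imp fun a h =>
    (⟨h.1, fun j hj => (le_total _ _).elim id (h.2 hj)⟩ :
      a ∈ Function.support μ ∧ ∀ j ∈ Function.support μ, v (μ j) ≤ v (μ a))
  have hall : ∀ j, v (μ j) ≤ v (μ a) := by
    intro j
    by_cases hj : μ j = 0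
    · simp [hj]
    · exact hmax j hj
  have hex : ∃ i, ∀ j, v (μ j) ≤ v (μ i) := ⟨a, hall⟩
  refine ⟨Nat.find hex, Nat.find_spec hex, fun j hj => ?_, fun h => ?_⟩
  · have := Nat.find_min hex hj
    push Not at this
    obtain ⟨k, hk⟩ := this
    exact hk.trans_le (Nat.find_spec hex k)
  · have := Nat.find_spec hex a
    dsimp only at h
    rw [h, map_zero, le_zero_iff, Valuation.zero_iff] at this
    exact ha this

lemma IsIdx.conv {μ ν : ℕ → ℝ} {a b : ℕ} (ha : IsIdx v μ a) (hb : IsIdx v ν b) :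
    IsIdx v (conv μ ν) (a + b) := by
  classical
  have pa : 0 < v (μ a) := zero_lt_iff.2 ((Valuation.ne_zero_iff v).2 ha.2.2)
  have pb : 0 < v (ν b) := zero_lt_iff.2 ((Valuation.ne_zero_iff v).2 hb.2.2)
  have hlt : ∀ i j, (i < a ∨ j < b) → v (μ i * ν j) < v (μ a) * v (ν b) := by
    intro i j h
    rw [map_mul]
    rcases h with h | h
    · calc v (μ i) * v (ν j) ≤ v (μ i) * v (ν b) := by gcongr; exact hb.1 j
        _ < v (μ a) * v (ν b) := mul_lt_mul_of_pos_right (ha.2.1 i h) pb
    · calc v (μ i) * v (ν j) ≤ v (μ a) * v (ν j) := by gcongr; exact ha.1 i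
        _ < v (μ a) * v (ν b) := mul_lt_mul_of_pos_left (hb.2.1 j h) pa
  have heq : v (Val.conv μ ν (a + b)) = v (μ a) * v (ν b) := by
    unfold Val.conv
    rw [v.map_sum_eq_of_lt (j := (a, b)) (by simp), map_mul]
    intro p hp
    simp only [mem_sdiff, HasAntidiagonal.mem_antidiagonal, mem_singleton] at hp
    rw [map_mul v (μ a)]
    apply hlt
    by_contra hc
    push Not at hc
    apply hp.2
    ext <;> simp <;> omega
  refine ⟨fun j => ?_, fun j hj => ?_, fun h => ?_⟩
  · rw [heq]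
    apply v.map_sum_le
    intro p _
    rw [map_mul]
    gcongr
    · exact ha.1 _
    · exact hb.1 _
  · rw [heq]
    apply v.map_sum_lt' (mul_pos pa pb)
    intro p hp
    rw [HasAntidiagonal.mem_antidiagonal] at hp
    apply hlt
    omega
  · rw [h, map_zero] at heq
    exact (mul_pos pa pb).ne heq

end

def diracP (m : ℕ) : FinProb :=
  ⟨dirac m, fun s => by unfold dirac; split_ifs <;> norm_num,
    (Set.finite_singleton m).subset fun s hs => by
      by_contra h
      exact hs (if_neg h),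
    by rw [finsum_eq_single (dirac m) m fun x hx => if_neg hx]; simp [dirac]⟩

lemma conv_dirac (a b : ℕ) : conv (dirac a) (dirac b) = dirac (a + b) := by
  funext s
  unfold conv
  by_cases h : s = a + b
  · subst h
    rw [Finset.sum_eq_single (a, b)]
    · simp [dirac]
    · intro p hp hne
      rw [HasAntidiagonal.mem_antidiagonal] at hp
      unfold dirac
      split_ifs with h1 h2
      · exact absurd (Prod.ext h1 h2) hne
      · simp
      · simp
      · simp
    · simp
  · rw [show dirac (a + b) s = 0 from if_neg h]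
    apply Finset.sum_eq_zero
    intro p hp
    rw [HasAntidiagonal.mem_antidiagonal] at hp
    unfold dirac
    split_ifs with h1 h2
    · omega
    · simp
    · simp
    · simp

/-- the two-point law with masses `x` at `0` and `1 - x` at `1` -/
noncomputable def two (x : ℝ) (s : ℕ) : ℝ := if s = 0 then x else if s = 1 then 1 - x else 0

lemma two_supp (x : ℝ) : Function.support (two x) ⊆ ((({0, 1} : Finset ℕ)) : Set ℕ) := by
  intro s hs
  by_contra h
  simp at h
  exact hs (by simp [two, h.1, h.2])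

noncomputable def twoP (x : ℝ) (h0 : 0 ≤ x) (h1 : x ≤ 1) : FinProb :=
  ⟨two x, fun s => by unfold two; split_ifs <;> linarith,
    (Finset.finite_toSet _).subset (two_supp x),
    by rw [finsum_eq_sum_of_support_subset _ (two_supp x)]; simp [two]⟩

lemma supp_two {x : ℝ} (h0 : 0 < x) (h1 : x < 1) : supp (two x) = {0, 1} := by
  ext s
  simp only [supp, two, Set.mem_ofPred_eq, Set.mem_insert_iff, Set.mem_singleton_iff]
  split_ifs with a b
  · simp [a, h0]
  · simp [b, h1]
  · simp [a, b]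

theorem result : ∃ Ψ : FinProb → FinProb, IsEndo Ψ ∧ WeaklySP Ψ ∧
    (∀ β : ℝ, ∃ μ : FinProb, (Ψ μ).1 ≠ tilt β μ.1) ∧
    (∃ μ : FinProb, (Ψ μ).1 ≠ phiMax μ.1) ∧ (∃ μ : FinProb, (Ψ μ).1 ≠ phiMin μ.1) := by
  obtain ⟨V, hV⟩ := exists_val
  set v := V.valuation
  choose idx hidx using exists_idx v
  have h3 : 0 < v (1 / 3) := zero_lt_iff.2 ((Valuation.ne_zero_iff v).2 (by norm_num))
  have h23 : v (2 / 3) < v (1 / 3) := by
    rw [show (2 / 3 : ℝ) = 2 * (1 / 3) by norm_num, map_mul]
    simpa using mul_lt_mul_of_pos_right hV h3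
  have i1 : idx (twoP (1 / 3) (by norm_num) (by norm_num)) = 0 := by
    refine (hidx _).unique v ⟨fun j => ?_, fun j hj => by omega, by simp [twoP, two]⟩
    simp only [twoP, two]
    split_ifs with a b
    · exact le_rfl
    · rw [show (1 - 1 / 3 : ℝ) = 2 / 3 by norm_num]; exact h23.le
    · simp
  have i2 : idx (twoP (2 / 3) (by norm_num) (by norm_num)) = 1 := by
    have e : two (2 / 3) 1 = 1 / 3 := by simp [two]; norm_num
    refine (hidx _).unique v ⟨fun j => ?_, fun j hj => ?_, ?_⟩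
    · simp only [twoP]
      rw [e]
      unfold two
      split_ifs with a b
      · exact h23.le
      · rw [show (1 - 2 / 3 : ℝ) = 1 / 3 by norm_num]
      · simp
    · simp only [twoP]
      rw [e, show j = 0 by omega]
      simpa [two] using h23
    · simp only [twoP]
      rw [e]; norm_num
  refine ⟨fun μ => diracP (idx μ), fun μ₁ μ₂ μ h => ?_, fun μ s hs => ?_, fun β => ?_, ?_, ?_⟩
  · have := (hidx μ₁).conv v (hidx μ₂)
    rw [← h] at this
    simp only [diracP]
    rw [conv_dirac, (hidx μ).unique v this]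
  · have : s = idx μ := by
      by_contra h
      simp [supp, diracP, dirac, h] at hs
    subst this
    exact lt_of_le_of_ne (μ.2.1 _) (hidx μ).2.2.symm
  · refine ⟨twoP (1 / 3) (by norm_num) (by norm_num), fun h => ?_⟩
    simp only [i1] at h
    have h1 := congrFun h 1
    have h0 := congrFun h 0
    simp only [diracP, dirac, tilt, twoP] at h1 h0
    have e : two (1 / 3) 1 = 2 / 3 := by simp [two]; norm_num
    rw [e] at h1
    simp only [one_ne_zero, if_false] at h1
    rcases div_eq_zero_iff.1 h1.symm with h2 | h2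
    · exact (mul_pos (by norm_num) (Real.exp_pos _)).ne' h2
    · rw [h2] at h0
      simp at h0
  · refine ⟨twoP (1 / 3) (by norm_num) (by norm_num), fun h => ?_⟩
    simp only [i1] at h
    have h0 := congrFun h 0
    simp only [diracP, phiMax, twoP] at h0
    rw [supp_two (by norm_num) (by norm_num), csSup_pair] at h0
    simp [dirac] at h0
  · refine ⟨twoP (2 / 3) (by norm_num) (by norm_num), fun h => ?_⟩
    simp only [i2] at h
    have h0 := congrFun h 0
    simp only [diracP, phiMin, twoP] at h0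
    rw [supp_two (by norm_num) (by norm_num), csInf_pair] at h0
    simp [dirac] at h0

end Pool.Agent.Results.MP_aec1ed_pr.Val
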